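import Mathlib
import Pool.Agent.helper7.OC.Defs2
import Pool.Agent.helper23.OC.BBfin

/-!
# Project OC, module SS2: harmful moduli
-/

set_option autoImplicit false

open Finset

namespace Pool.Agent.helper7.OC

theorem harm_count (C₁ : ℕ) (c₂ : ℝ) (hc : 0 < c₂) : ∃ C₄ : ℝ, 1 ≤ C₄ ∧
    ∀ (b k₀ : ℕ) (P 𝓜 : Finset ℕ), 1 ≤ b → b ≤ 12 * k₀ →
    (∀ ℓ ∈ P, ℓ.Prime ∧ 2 ^ b < ℓ ∧ ℓ ≤ C₁ * 2 ^ b) → c₂ / b ≤ hs P →
    (∀ m ∈ 𝓜, Squarefree m ∧ Odd m ∧ 1 < m ∧ m ≤ 8 ^ k₀ ∧ 7 / 10 * hs P ≤ |cs P m|) →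
    (𝓜.card : ℝ) ≤ 10 * (C₄ * k₀ ^ 2) ^ (6 * k₀ / b + 1) := by
  refine ⟨max 1 (C₁ ^ 2 * 216 / (7 / 10 * c₂) ^ 2), le_max_left _ _, ?_⟩
  intro b k₀ P 𝓜 hb hbk hP hhs h𝓜
  have hbR : (1 : ℝ) ≤ b := by exact_mod_cast hb
  have hb0 : (0 : ℝ) < b := by linarith
  have hC1 : 1 ≤ C₁ := by
    by_contra hcon
    have h0 : C₁ = 0 := by omega
    have hPe : P = ∅ := by
      apply Finset.eq_empty_of_forall_notMem
      intro ℓ hℓ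
      have h1 := (hP ℓ hℓ).2.1
      have h2 := (hP ℓ hℓ).2.2
      rw [h0, zero_mul] at h2
      exact absurd (lt_of_lt_of_le h1 h2) (Nat.not_lt_zero _)
    rw [hPe] at hhs
    have : (0 : ℝ) < c₂ / b := by positivity
    have e : hs (∅ : Finset ℕ) = 0 := by simp [hs]
    rw [e] at hhs
    linarith
  set k : ℕ := 6 * k₀ / b + 1 with hk
  have hkb : k * b ≤ 18 * k₀ := by
    have h1 : (6 * k₀ / b) * b ≤ 6 * k₀ := Nat.div_mul_le_self _ _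
    rw [hk, add_mul, one_mul]
    omega
  have hkb' : 6 * k₀ ≤ b * k := by
    have h1 : 6 * k₀ < b * (6 * k₀ / b + 1) := Nat.lt_mul_div_succ _ hb
    exact h1.le
  have hη : 0 < 7 / 10 * (c₂ / b) := by positivity
  have hmain := moment P 𝓜 (2 ^ b) (8 ^ k₀) C₁ k (7 / 10 * (c₂ / b)) (Nat.succ_le_succ (Nat.zero_le _))
    Nat.one_le_two_pow hC1 hP (by
      rw [← pow_mul, ← pow_mul, show (8 : ℕ) = 2 ^ 3 from rfl, ← pow_mul]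
      exact Nat.pow_le_pow_right (by norm_num) (by omega)) hη (by
      intro m hm
      obtain ⟨h1, h2, h3, h4, h5⟩ := h𝓜 m hm
      refine ⟨h1, h2, h3, h4, le_trans ?_ h5⟩
      exact mul_le_mul_of_nonneg_left hhs (by norm_num))
  refine hmain.trans ?_
  refine mul_le_mul_of_nonneg_left ?_ (by norm_num)
  refine pow_le_pow_left₀ (by positivity) ?_ _
  have h1 : (C₁ : ℝ) ^ 2 * k / (7 / 10 * (c₂ / b)) ^ 2
      = C₁ ^ 2 / (7 / 10 * c₂) ^ 2 * ((k : ℝ) * b * b) := by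
    field_simp
  have h2 : ((k : ℝ) * b * b) ≤ 18 * k₀ * (12 * k₀) := by
    have h3 : ((k : ℝ) * b) ≤ 18 * k₀ := by exact_mod_cast hkb
    have h4 : (b : ℝ) ≤ 12 * k₀ := by exact_mod_cast hbk
    have h5 : (0 : ℝ) ≤ (k : ℝ) * b := by positivity
    exact mul_le_mul h3 h4 hb0.le (by positivity)
  rw [h1]
  calc (C₁ : ℝ) ^ 2 / (7 / 10 * c₂) ^ 2 * ((k : ℝ) * b * b)
      ≤ C₁ ^ 2 / (7 / 10 * c₂) ^ 2 * (18 * k₀ * (12 * k₀)) :=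
        mul_le_mul_of_nonneg_left h2 (by positivity)
    _ = C₁ ^ 2 * 216 / (7 / 10 * c₂) ^ 2 * k₀ ^ 2 := by ring
    _ ≤ max 1 (C₁ ^ 2 * 216 / (7 / 10 * c₂) ^ 2) * k₀ ^ 2 :=
        mul_le_mul_of_nonneg_right (le_max_right _ _) (by positivity)

end Pool.Agent.helper7.OC
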